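import Pool.Agent.H29.ENR.Stmts

/-!
# Board `enr`, row FLD (helper62)
-/

set_option autoImplicit false

namespace Pool.ENR

open Polynomial

private theorem fld_irr (p : ℕ) [Fact p.Prime] (π : Polynomial (ZMod p)) (hπ : Irreducible π)
    (m : ℕ) (hm : p ^ π.natDegree - 1 ∣ m) : π ∣ X * (X ^ m - 1) := by
  haveI : Fact (Irreducible π) := ⟨hπ⟩
  have h0 : π ≠ 0 := hπ.ne_zero
  haveI : Module.Finite (ZMod p) (AdjoinRoot π) := (AdjoinRoot.powerBasis h0).finite
  haveI : Finite (AdjoinRoot π) := Module.finite_of_finite (ZMod p)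
  letI : Fintype (AdjoinRoot π) := Fintype.ofFinite _
  have hcard : Fintype.card (AdjoinRoot π) = p ^ π.natDegree := by
    rw [Module.card_eq_pow_finrank (K := ZMod p), ZMod.card, (AdjoinRoot.powerBasis h0).finrank,
      AdjoinRoot.powerBasis_dim]
  rw [← AdjoinRoot.mk_eq_zero, map_mul, map_sub, map_pow, map_one, AdjoinRoot.mk_X]
  by_cases hα : AdjoinRoot.root π = 0
  · rw [hα, zero_mul]
  · have h1 := FiniteField.pow_card_sub_one_eq_one (AdjoinRoot.root π) hα
    rw [hcard] at h1
    obtain ⟨c, rfl⟩ := hm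
    rw [pow_mul, h1, one_pow, sub_self, mul_zero]

theorem fld_thm : FLDStmt := by
  intro p hp f hf
  set n := f.natDegree with hn
  set m : ℕ := ∏ i ∈ Finset.Icc 1 n, (p ^ i - 1) with hm
  refine ⟨m, ?_, ?_⟩
  · intro h
    rw [hm, (Nat.Prime.prime hp.out).dvd_finset_prod_iff] at h
    obtain ⟨i, hi, h⟩ := h
    rw [Finset.mem_Icc] at hi
    have h1 : p ∣ p ^ i := dvd_pow_self p (by omega)
    have h2 : 1 ≤ p ^ i := Nat.one_le_pow _ _ hp.out.pos
    have h3 : p ∣ 1 := by
      have h4 := Nat.dvd_sub h1 h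
      rwa [Nat.sub_sub_self h2] at h4
    exact hp.out.one_lt.ne' (Nat.dvd_one.1 h3)
  · have key : ∀ N : ℕ, ∀ g : Polynomial (ZMod p), g ≠ 0 → g.natDegree = N → N ≤ n →
        g ∣ (X * (X ^ m - 1)) ^ g.natDegree := by
      intro N
      induction N using Nat.strong_induction_on with
      | _ N ih =>
        intro g hg hgN hNn
        by_cases hu : IsUnit g
        · exact hu.dvd
        · obtain ⟨π, hπ, h, rfl⟩ := WfDvdMonoid.exists_irreducible_factor hu hg
          have hπ0 := hπ.ne_zero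
          have hh0 : h ≠ 0 := right_ne_zero_of_mul hg
          rw [natDegree_mul hπ0 hh0] at hgN ⊢
          have hπ1 : 0 < π.natDegree := hπ.natDegree_pos
          have h1 := ih h.natDegree (by omega) h hh0 rfl (by omega)
          have h2 : π ∣ X * (X ^ m - 1) := fld_irr p π hπ m
            (Finset.dvd_prod_of_mem (fun i => p ^ i - 1) (Finset.mem_Icc.2 ⟨hπ1, by omega⟩))
          rw [pow_add]
          exact mul_dvd_mul (h2.trans (dvd_pow_self _ hπ1.ne')) h1
    exact key n f hf.ne_zero rfl le_rfl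

end Pool.ENR
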