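import Pool.Agent.H36.ENR.Stmts2

/-!
# Board `enr`, row LRF (helper62)
-/

set_option autoImplicit false

namespace Pool.ENR

open Pool.Agent.H81.ENG Pool.Agent.H55.NEU

/-- the endomorphism of the additive group -/
private def lrfE {V : Type} [CommGroup V] (σ : MulAut V) : AddMonoid.End (Additive V) :=
  MonoidHom.toAdditive σ.toMonoidHom

private theorem lrfE_apply {V : Type} [CommGroup V] (σ : MulAut V) (v : V) :
    lrfE σ (Additive.ofMul v) = Additive.ofMul (σ v) := rfl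

private theorem lrfE_pow {V : Type} [CommGroup V] (σ : MulAut V) (n : ℕ) :
    (lrfE σ) ^ n = lrfE (σ ^ n) := by
  induction n with
  | zero => rfl
  | succ n ih =>
    rw [pow_succ, ih, pow_succ]
    rfl

private theorem lrfE_ef {V : Type} [CommGroup V] (σ : MulAut V) (r : ℕ) (v : V) :
    ((lrfE σ - 1) ^ r) (Additive.ofMul v) = Additive.ofMul ((ef σ)^[r] v) := by
  induction r generalizing v with
  | zero => rfl
  | succ r ih =>
    rw [pow_succ, Function.iterate_succ_apply, ← ih]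
    have h1 : (lrfE σ - 1) (Additive.ofMul v) = Additive.ofMul (ef σ v) := by
      unfold ef
      rw [mul_comm]
      exact (sub_eq_add_neg (Additive.ofMul (σ v)) (Additive.ofMul v))
    rw [← h1]
    rfl

/-- a commutative ring of endomorphisms -/
private theorem lrf_ring {A : Type} [Ring A] [Finite A] (s : A) :
    ∃ (R : Type) (_ : CommRing R) (_ : Finite R) (φ : R →+* A) (x : R),
      Function.Injective φ ∧ φ x = s := by
  let ev : Polynomial ℤ →+* A := (Polynomial.aeval s : Polynomial ℤ →ₐ[ℤ] A).toRingHom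
  refine ⟨Polynomial ℤ ⧸ RingHom.ker ev, inferInstance,
    Finite.of_injective _ (RingHom.kerLift_injective ev), RingHom.kerLift ev,
    Ideal.Quotient.mk _ Polynomial.X, RingHom.kerLift_injective ev, ?_⟩
  rw [RingHom.kerLift_mk]
  exact Polynomial.aeval_X s

private theorem lrf_ker {R M : Type} [CommRing R] [Finite R] [AddCommGroup M]
    (φ : R →+* AddMonoid.End M) (hφ : Function.Injective φ) (m : Ideal R) (hm : m ≠ ⊤) (y : R)
    (hy : y ∈ m) : ∃ v : M, v ≠ 0 ∧ φ y v = 0 := by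
  by_contra hcon
  push Not at hcon
  apply hm
  have hinj : Function.Injective (fun z : R => y * z) := by
    intro z z' h
    have h1 : y * (z - z') = 0 := by
      have h0 : y * z = y * z' := h
      rw [mul_sub, h0, sub_self]
    have h2 : z - z' = 0 := by
      apply hφ
      rw [map_zero]
      apply AddMonoidHom.ext
      intro v
      have h3 : φ y (φ (z - z') v) = 0 := by
        have h5 : (φ y * φ (z - z')) v = 0 := by
          rw [← map_mul, h1, map_zero]
          rfl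
        exact h5
      by_contra h4
      exact hcon _ h4 h3
    exact sub_eq_zero.1 h2
  obtain ⟨z, hz⟩ := Finite.surjective_of_injective hinj 1
  rw [Ideal.eq_top_iff_one, ← hz]
  exact m.mul_mem_right z hy

private theorem lrf_core {R M : Type} [CommRing R] [Finite R] [AddCommGroup M] [Finite M]
    (φ : R →+* AddMonoid.End M) (hφ : Function.Injective φ) (x : R) (p μ : ℕ) (hp : p.Prime)
    (hp2 : p ≠ 2) (hμ : 1 ≤ μ) (hM : ¬ p ∣ Nat.card M) (h1 : x ^ (p ^ μ) = 1)
    (h2 : x ^ (p ^ (μ - 1)) ≠ 1) :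
    ∃ r : ℕ, 0 < r ∧ ∃ v : M, v ≠ 0 ∧ (φ ((x - 1) ^ r - x) v = 0 ∨
      φ ((x ^ (p ^ μ - 1) - 1) ^ r - x ^ (p ^ μ - 1)) v = 0) := by
  have hμ1 : p ^ (μ - 1) * p = p ^ μ := by rw [← pow_succ, Nat.sub_add_cancel hμ]
  have hwp : (x ^ (p ^ (μ - 1))) ^ p = 1 := by rw [← pow_mul, hμ1, h1]
  have hF1 : (x ^ (p ^ (μ - 1)) - 1) * ∑ i ∈ Finset.range p, (x ^ (p ^ (μ - 1))) ^ i = 0 := by
    rw [mul_geom_sum, hwp, sub_self]
  have hI : Ideal.span {∑ i ∈ Finset.range p, (x ^ (p ^ (μ - 1))) ^ i} ≠ ⊤ := by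
    intro h
    rw [Ideal.span_singleton_eq_top] at h
    have h3 : x ^ (p ^ (μ - 1)) - 1 = 0 := h.mul_left_eq_zero.1 hF1
    exact h2 (sub_eq_zero.1 h3)
  obtain ⟨m, hm, hFm⟩ := Ideal.exists_le_maximal _ hI
  haveI := hm
  letI : Field (R ⧸ m) := Ideal.Quotient.field m
  haveI : Finite (R ⧸ m) := Finite.of_surjective _ (Ideal.Quotient.mk_surjective (I := m))
  have hFm' : ∑ i ∈ Finset.range p, (x ^ (p ^ (μ - 1))) ^ i ∈ m :=
    hFm (Ideal.mem_span_singleton_self _)
  have hpK : ((p : ℕ) : R ⧸ m) ≠ 0 := by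
    intro hp0
    have hc : ((Nat.card M : ℕ) : R) = 0 := by
      apply hφ
      rw [map_natCast, map_zero]
      apply AddMonoidHom.ext
      intro v
      have h4 : ((Nat.card M : ℕ) : AddMonoid.End M) v = Nat.card M • v := by
        rw [← nsmul_one (Nat.card M)]
        rfl
      exact h4.trans card_nsmul_eq_zero'
    have hc' : ((Nat.card M : ℕ) : R ⧸ m) = 0 := by
      rw [← map_natCast (Ideal.Quotient.mk m), hc, map_zero]
    have hcop : Nat.Coprime p (Nat.card M) := (Nat.Prime.coprime_iff_not_dvd hp).2 hM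
    obtain ⟨a, b, hab⟩ := Nat.isCoprime_iff_coprime.2 hcop
    have h4 := congrArg (Int.cast : ℤ → R ⧸ m) hab
    push_cast at h4
    rw [hp0, hc', mul_zero, mul_zero, add_zero] at h4
    exact zero_ne_one h4
  obtain ⟨ζ, hζ⟩ : ∃ ζ : R ⧸ m, ζ = Ideal.Quotient.mk m x := ⟨_, rfl⟩
  have hζ1 : ζ ^ (p ^ μ) = 1 := by rw [hζ, ← map_pow, h1, map_one]
  have hζ2 : ζ ^ (p ^ (μ - 1)) ≠ 1 := by
    intro h
    rw [hζ, ← map_pow] at h
    have h5 : Ideal.Quotient.mk m (∑ i ∈ Finset.range p, (x ^ (p ^ (μ - 1))) ^ i) =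
        ((p : ℕ) : R ⧸ m) := by
      rw [map_sum]
      have h6 : ∀ i ∈ Finset.range p,
          Ideal.Quotient.mk m ((x ^ (p ^ (μ - 1))) ^ i) = 1 := by
        intro i _
        rw [map_pow, h, one_pow]
      rw [Finset.sum_congr rfl h6, Finset.sum_const, Finset.card_range, nsmul_eq_mul, mul_one]
    rw [Ideal.Quotient.eq_zero_iff_mem.2 hFm'] at h5
    exact hpK h5.symm
  have hord : orderOf ζ = p ^ μ := by
    haveI : Fact p.Prime := ⟨hp⟩
    obtain ⟨ν, rfl⟩ : ∃ ν, μ = ν + 1 := ⟨μ - 1, by omega⟩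
    exact orderOf_eq_prime_pow hζ2 hζ1
  have hprim : IsPrimitiveRoot ζ (p ^ μ) := hord ▸ IsPrimitiveRoot.orderOf ζ
  haveI : Fact (Nat.Prime 2) := ⟨Nat.prime_two⟩
  have h3p : 2 < p ^ μ := by
    have h7 : 2 < p := lt_of_le_of_ne hp.two_le (Ne.symm hp2)
    exact lt_of_lt_of_le h7 (Nat.le_self_pow (by omega) p)
  rcases root_field (q := 2) hp hp2 h3p hprim with ⟨r, hr, h⟩ | ⟨r, hr, h⟩
  · obtain ⟨v, hv, hv2⟩ := lrf_ker φ hφ m hm.ne_top ((x - 1) ^ r - x) (by
      rw [← Ideal.Quotient.eq_zero_iff_mem, map_sub, map_pow, map_sub, map_one, ← hζ]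
      exact sub_eq_zero.2 h)
    exact ⟨r, hr, v, hv, Or.inl hv2⟩
  · have hinv : ζ⁻¹ = ζ ^ (p ^ μ - 1) := by
      refine inv_eq_of_mul_eq_one_left ?_
      rw [← pow_succ, Nat.sub_add_cancel (by omega), hζ1]
    rw [hinv] at h
    obtain ⟨v, hv, hv2⟩ := lrf_ker φ hφ m hm.ne_top
      ((x ^ (p ^ μ - 1) - 1) ^ r - x ^ (p ^ μ - 1)) (by
        rw [← Ideal.Quotient.eq_zero_iff_mem, map_sub, map_pow, map_sub, map_one, map_pow, ← hζ]
        exact sub_eq_zero.2 h)
    exact ⟨r, hr, v, hv, Or.inr hv2⟩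

theorem lrf_thm : LRFStmt := by
  intro V _ _ p μ s hp hp2 hμ hV hs1 hs2
  haveI : Finite (AddMonoid.End (Additive V)) :=
    Finite.of_injective (fun f : AddMonoid.End (Additive V) => (f : Additive V → Additive V))
      DFunLike.coe_injective
  obtain ⟨R, _, _, φ, x, hφ, hx⟩ := lrf_ring (lrfE s)
  have hx1 : x ^ (p ^ μ) = 1 := by
    apply hφ
    rw [map_pow, hx, lrfE_pow, hs1, map_one]
    rfl
  have hx2 : x ^ (p ^ (μ - 1)) ≠ 1 := by
    intro h
    have h3 := congrArg φ h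
    rw [map_pow, hx, lrfE_pow, map_one] at h3
    apply hs2
    apply MulEquiv.ext
    intro v
    have h4 : lrfE (s ^ (p ^ (μ - 1))) (Additive.ofMul v) = Additive.ofMul v := by
      rw [h3]
      rfl
    exact h4
  have hcard : ¬ p ∣ Nat.card (Additive V) := hV
  obtain ⟨r, hr, v, hv, h⟩ := lrf_core φ hφ x p μ hp hp2 hμ hcard hx1 hx2
  have hsinv : s ^ (p ^ μ - 1) = s⁻¹ := by
    refine eq_inv_of_mul_eq_one_left ?_
    have h0 : 0 < p ^ μ := pow_pos hp.pos _
    rw [← pow_succ, Nat.sub_add_cancel h0, hs1]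
  refine ⟨Additive.toMul v, fun h0 => hv h0, r, hr, ?_⟩
  rcases h with h | h
  · left
    rw [map_sub, map_pow, map_sub, map_one, hx] at h
    have h5 : ((lrfE s - 1) ^ r) v = lrfE s v := sub_eq_zero.1 h
    exact (lrfE_ef s r (Additive.toMul v)).symm.trans h5
  · right
    rw [map_sub, map_pow, map_sub, map_one, map_pow, hx, lrfE_pow, hsinv] at h
    have h5 : ((lrfE s⁻¹ - 1) ^ r) v = lrfE s⁻¹ v := sub_eq_zero.1 h
    exact (lrfE_ef s⁻¹ r (Additive.toMul v)).symm.trans h5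

end Pool.ENR
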