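import Pool.Agent.H29.ENR.Stmts6

/-!
# Board `enr`, row PB5 (helper62)
-/

set_option autoImplicit false

namespace Pool.ENR

open Pool.Agent.H81.ENG

theorem pb5_thm : PB5Stmt := by
  intro G _ _ d p M hM hp hc hL g
  haveI := hM
  obtain ⟨N, w, hw, ho⟩ := Nat.exists_eq_pow_mul_and_not_dvd (orderOf_pos g).ne' p hp.ne_one
  refine ⟨w, hw, ?_⟩
  intro m hm
  by_cases hD : ed d = 0
  · rw [hD, zero_mul, pow_zero, one_mul, mul_one]
  · obtain ⟨v, D', hD', hDv⟩ := Nat.exists_eq_pow_mul_and_not_dvd hD p hp.ne_one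
    have hnd : ¬ p ^ (v + 1) ∣ ed d := by
      rw [hDv, pow_succ]
      intro hcon
      exact hD' (Nat.dvd_of_mul_dvd_mul_left (pow_pos hp.pos v) hcon)
    have hz := coprime_case hL hp hc (y := g ^ w) (N := N)
      (by rw [← pow_mul, mul_comm, ← ho, pow_orderOf_eq_one]) hnd
    have h1 : g ^ (ed d * w) = ((g ^ w) ^ (p ^ v)) ^ D' := by
      rw [← pow_mul, ← pow_mul, hDv]
      congr 1
      ring
    rw [h1]
    have h2 : Commute ((g ^ w) ^ (p ^ v)) m := hz m hm
    exact (h2.pow_left D').eq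

end Pool.ENR
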