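import Pool.Agent.H29.ENR.Stmts5

/-!
# Board `enr`, row Q3P (helper62): assembly for `PSL(2,q)`, `q ≡ 3 mod 8`
-/

set_option autoImplicit false

namespace Pool.ENR

open Pool.Agent.H81.ENG Pool.Agent.H55.NEU

private theorem q3p_det {F : Type} [Field F] (I : Matrix (Fin 2) (Fin 2) F) (hI : I * I = -1)
    (hIs : ∀ x : F, I ≠ x • (1 : Matrix (Fin 2) (Fin 2) F)) : (1 + I).det = 2 := by
  have e00 := congrFun (congrFun hI 0) 0
  have e01 := congrFun (congrFun hI 0) 1
  have e10 := congrFun (congrFun hI 1) 0
  have e11 := congrFun (congrFun hI 1) 1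
  simp only [Matrix.mul_apply, Fin.sum_univ_two, Matrix.neg_apply, Matrix.one_apply_eq,
    Matrix.one_apply, Fin.isValue] at e00 e01 e10 e11
  simp at e01 e10
  have htr : I 0 0 + I 1 1 = 0 := by
    by_contra htr
    have hb : I 0 1 = 0 := by
      have h : I 0 1 * (I 0 0 + I 1 1) = 0 := by linear_combination e01
      exact (mul_eq_zero.1 h).resolve_right htr
    have hc : I 1 0 = 0 := by
      have h : I 1 0 * (I 0 0 + I 1 1) = 0 := by linear_combination e10
      exact (mul_eq_zero.1 h).resolve_right htr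
    have had : I 0 0 = I 1 1 := by
      have h : (I 0 0 - I 1 1) * (I 0 0 + I 1 1) = 0 := by
        linear_combination e00 - e11
      exact sub_eq_zero.1 ((mul_eq_zero.1 h).resolve_right htr)
    apply hIs (I 0 0)
    ext i j
    fin_cases i <;> fin_cases j <;> simp [hb, hc, had]
  rw [Matrix.det_fin_two]
  simp only [Matrix.add_apply, Matrix.one_apply_eq, ne_eq, zero_ne_one, not_false_eq_true,
    Matrix.one_apply_ne, one_ne_zero, zero_add]
  have hd : I 1 1 = -I 0 0 := by linear_combination htr
  rw [hd] at e11 ⊢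
  linear_combination -e11

theorem q3p_thm (h1 : INVStmt) (h2 : Q3AStmt) (h3 : Q3VStmt) (h4 : Q3CStmt) (h5 : Q3GStmt)
    (h6 : Q3HStmt) : Q3PStmt := by
  classical
  intro F _ _ h8 h11 hs hna σ N m hN hm
  rcases h2 F h8 σ N hN with hσ2 | ⟨hσ4, I, hI, hIs, hCM⟩
  · left
    have hm0 : m = 0 := by
      by_contra hm0
      apply hm
      obtain ⟨m', rfl⟩ := Nat.exists_eq_succ_of_ne_zero hm0
      rw [Nat.succ_eq_add_one, pow_succ', pow_mul, hσ2, one_pow]
    subst hm0
    rw [pow_zero, pow_one] at hm
    exact h1 (PS F) σ hs hna hσ2 hm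
  · right
    right
    right
    have hm1 : m ≤ 1 := by
      by_contra hm1
      apply hm
      obtain ⟨m', rfl⟩ : ∃ m', m = m' + 2 := ⟨m - 2, by omega⟩
      rw [pow_add, mul_comm, pow_mul]
      have h4' : (2 : ℕ) ^ 2 = 4 := by norm_num
      rw [h4', hσ4, one_pow]
    have h20 : (2 : F) ≠ 0 := by
      intro h20
      have h21 : ((Nat.card F : ℕ) : F) = 0 := by
        rw [← nsmul_one]
        exact card_nsmul_eq_zero'
      have h22 : Nat.card F = 2 * (4 * (Nat.card F / 8) + 1) + 1 := by omega
      rw [h22, Nat.cast_add, Nat.cast_mul, Nat.cast_ofNat, h20, zero_mul, zero_add,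
        Nat.cast_one] at h21
      exact one_ne_zero h21
    refine ⟨?_, ?_⟩
    · intro b hb d hd
      have h7 := h3 F h20 I σ hI hIs hCM b hb d hd
      exact (pow_dvd_pow 2 (by omega)).trans h7
    · intro d _ hSL
      obtain ⟨v, e, hv, hve, he⟩ := h6 F h8 h11
      letI : Fintype F := Fintype.ofFinite F
      have hcard : Fintype.card F % 8 = 3 := by
        rw [← Nat.card_eq_fintype_card]
        exact h8
      have hdet := q3p_det I hI hIs
      have hv0 : v + 2 ≠ 0 := by
        intro h
        apply hv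
        rw [h]
        exact IsSquare.zero
      have h2ns : ¬ IsSquare (2 : F) := by
        rw [FiniteField.isSquare_two_iff]
        rintro ⟨h, -⟩
        exact h hcard
      have hχ : quadraticChar F ((v + 2) * 2) = 1 := by
        rw [map_mul, quadraticChar_neg_one_iff_not_isSquare.2 hv,
          quadraticChar_neg_one_iff_not_isSquare.2 h2ns]
        norm_num
      obtain ⟨s, hs'⟩ := (quadraticChar_one_iff_isSquare (mul_ne_zero hv0 h20)).1 hχ
      have hs0 : s ≠ 0 := by
        rintro rfl
        rw [mul_zero] at hs'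
        exact mul_ne_zero hv0 h20 hs'
      obtain ⟨t, ht⟩ := h4 F (1 + I) !![0, -(v + 2); 1, v + 2] (s / 2) σ (by rw [hdet]; exact h20)
        (div_ne_zero hs0 h20) (by
          rw [Matrix.det_fin_two_of, hdet]
          have h9 : s / 2 * (s / 2) * 2 = s * s / 2 := by
            field_simp
          rw [h9, ← hs']
          field_simp
          ring) hCM
      have h10 := h5 F h20 v e hv hve he (MulAut.conj t * σ) ht d (hSL t).1
      have h12 : 2 ^ (m + 1) ∣ 4 := by
        have h13 : (2 : ℕ) ^ (m + 1) ∣ 2 ^ 2 := pow_dvd_pow 2 (by omega)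
        exact h13
      have h14 : d ∣ ed d := by
        unfold ed
        exact dvd_mul_left d _
      exact (h12.trans h10).trans h14

end Pool.ENR
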