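import Pool.Agent.H29.ENR.Stmts11

set_option autoImplicit false

namespace Pool.ENR

open Pool.Agent.H81.ENG Pool.Agent.H55.NEU

theorem TS1_thm : TS1Stmt := by
  intro T _ τ d h
  let F : TSq τ 1 →* T := {
    toFun := fun x => (x : ℤ → T) 0
    map_one' := rfl
    map_mul' := fun _ _ => rfl }
  refine SL.of_inj (s' := τ) F ?_ ?_ h
  · intro x y hxy
    have h0 : (x : ℤ → T) 0 = (y : ℤ → T) 0 := hxy
    have hx : ∀ i : ℤ, (x : ℤ → T) (i + 1) = τ ((x : ℤ → T) i) := by
      intro i
      have := x.2 i
      simpa using this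
    have hy : ∀ i : ℤ, (y : ℤ → T) (i + 1) = τ ((y : ℤ → T) i) := by
      intro i
      have := y.2 i
      simpa using this
    apply Subtype.ext
    funext i
    induction i using Int.induction_on with
    | zero => exact h0
    | succ i ih => rw [hx, hy, ih]
    | pred i ih =>
      apply τ.injective
      rw [← hx, ← hy]
      have e : (-(i : ℤ) - 1 + 1) = -(i : ℤ) := by ring
      rw [e]
      exact ih
  · intro x
    have := x.2 0
    show ((tsh τ 1 x : TSq τ 1) : ℤ → T) 0 = τ ((x : ℤ → T) 0)
    rw [tsh_apply, ← this]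
    rfl

end Pool.ENR
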